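import Pool.Agent.Helper94.LG.Sheet3

namespace H11ST
namespace LG
namespace UPp

variable {d n : ℕ}

theorem psi_tm (p : Fin n → E d) (i : Fin n) : psi p (tm n i) = p i := by
  unfold psi tm
  rw [Finset.sum_eq_single i]
  · simp
  · intro j _ hj
    rw [EuclideanSpace.single_apply, if_neg hj, zero_smul]
  · intro h
    exact absurd (Finset.mem_univ i) h

theorem tm_Dl (i : Fin n) : tm n i ∈ Dl n := by
  unfold tm
  refine ⟨fun k => ?_, ?_⟩
  · rw [EuclideanSpace.single_apply]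
    split_ifs
    · exact zero_le_one
    · exact le_refl _
  · simp [EuclideanSpace.single_apply]

theorem n1_le {a b : E n} (ha : a ∈ Dl n) (hb : b ∈ Dl n) : n1 (a - b) ≤ 2 := by
  unfold n1
  have h : ∀ k, |(a - b) k| ≤ a k + b k := by
    intro k
    have e : (a - b) k = a k - b k := rfl
    rw [e, abs_le]
    constructor <;> linarith [ha.1 k, hb.1 k]
  calc ∑ k, |(a - b) k| ≤ ∑ k, (a k + b k) := Finset.sum_le_sum fun k _ => h k
    _ = 2 := by
      rw [Finset.sum_add_distrib, ha.2, hb.2]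
      norm_num

theorem dist_psi (hP : EX_PSI) {ε : ℝ} (hε : 0 ≤ ε) {p : Fin n → E d} (hp : NearOrth ε p)
    {a b : E n} (ha : a ∈ Dl n) (hb : b ∈ Dl n) :
    dist (psi p a) (psi p b) ≤ dist a b + 2 * √ε := by
  rw [dist_eq_norm, dist_eq_norm]
  have h := (abs_le.1 (hP d n ε p hε hp a b)).2
  have h2 : √ε * n1 (a - b) ≤ √ε * 2 :=
    mul_le_mul_of_nonneg_left (n1_le ha hb) (Real.sqrt_nonneg _)
  linarith

theorem pos_mapv (p : Fin n → E d) (t : BT (Fin n) (E n)) :
    (t.mapv (psi p)).pos p = psi p (t.pos (tm n)) := by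
  cases t with
  | leaf i => exact (psi_tm p i).symm
  | node z l r => rfl

theorem pos_Dl (t : BT (Fin n) (E n)) (h : ∀ z ∈ t.nodes, z ∈ Dl n) : t.pos (tm n) ∈ Dl n := by
  cases t with
  | leaf i => exact tm_Dl i
  | node z l r => exact h z (by simp [BT.nodes])

theorem lv_mapv (g : E n → E d) (t : BT (Fin n) (E n)) : (t.mapv g).lv = t.lv := by
  induction t with
  | leaf i => rfl
  | node z l r hl hr =>
    show (l.mapv g).lv ∪ (r.mapv g).lv = l.lv ∪ r.lv
    rw [hl, hr]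

theorem ok_mapv (g : E n → E d) (t : BT (Fin n) (E n)) (h : t.ok) : (t.mapv g).ok := by
  induction t with
  | leaf i => trivial
  | node z l r hl hr =>
    obtain ⟨h1, h2, h3⟩ := h
    refine ⟨hl h1, hr h2, ?_⟩
    rw [lv_mapv, lv_mapv]
    exact h3

theorem esum_mapv (hP : EX_PSI) {ε : ℝ} (hε : 0 ≤ ε) {p : Fin n → E d} (hp : NearOrth ε p)
    (t : BT (Fin n) (E n)) (hok : t.ok) (h : ∀ z ∈ t.nodes, z ∈ Dl n) :
    (t.mapv (psi p)).esum p dist ≤ t.esum (tm n) dist + 4 * √ε * ((t.lv.card : ℝ) - 1) := by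
  induction t with
  | leaf i => simp [BT.mapv, BT.esum, BT.lv]
  | node z l r hl hr =>
    obtain ⟨h1, h2, h3⟩ := hok
    have hz : z ∈ Dl n := h z (by simp [BT.nodes])
    have hL : ∀ w ∈ l.nodes, w ∈ Dl n := fun w hw => h w (by simp [BT.nodes, hw])
    have hR : ∀ w ∈ r.nodes, w ∈ Dl n := fun w hw => h w (by simp [BT.nodes, hw])
    have a1 := hl h1 hL
    have a2 := hr h2 hR
    have b1 := dist_psi hP hε hp hz (pos_Dl l hL)
    have b2 := dist_psi hP hε hp hz (pos_Dl r hR)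
    show dist (psi p z) ((l.mapv (psi p)).pos p) + (l.mapv (psi p)).esum p dist +
      (dist (psi p z) ((r.mapv (psi p)).pos p) + (r.mapv (psi p)).esum p dist) ≤
      dist z (l.pos (tm n)) + l.esum (tm n) dist + (dist z (r.pos (tm n)) + r.esum (tm n) dist) +
      4 * √ε * (((l.lv ∪ r.lv).card : ℝ) - 1)
    rw [pos_mapv, pos_mapv, Finset.card_union_of_disjoint h3]
    push_cast
    linarith

end UPp

theorem ex_up2 : EX_UP2 := by
  intro hU hPRJ hP d n ε p i0 hn hε hp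
  obtain ⟨t0, v0, l0⟩ := hU n i0 hn
  obtain ⟨t, v, m, l⟩ := hPRJ n i0 t0 v0
  refine ⟨t.mapv (psi p), ⟨UPp.ok_mapv _ t v.1, by rw [UPp.lv_mapv]; exact v.2⟩, ?_⟩
  have h1 := UPp.esum_mapv hP hε hp t v.1 m
  have h2 := UPp.dist_psi hP hε hp (UPp.tm_Dl i0) (UPp.pos_Dl t m)
  rw [v.2, Finset.card_erase_of_mem (Finset.mem_univ _), Finset.card_univ, Fintype.card_fin] at h1
  have e : ((n - 1 : ℕ) : ℝ) = n - 1 := by
    rw [Nat.cast_sub (by omega)]
    norm_num
  rw [e] at h1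
  rw [UPp.psi_tm] at h2
  unfold tot at l l0
  unfold gtot
  rw [UPp.pos_mapv]
  have hs := Real.sqrt_nonneg ε
  linarith

end LG
end H11ST
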