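import Pool.Agent.Helper94.LG.Sheet

namespace H11ST
namespace LG
namespace UPr

variable {d : ℕ}

theorem inn (i j : Fin d) : inner ℝ (tm d i) (tm d j) = if i = j then (1 : ℝ) else 0 := by
  unfold tm
  rw [EuclideanSpace.inner_single_left]
  simp [EuclideanSpace.single_apply, eq_comm]

theorem nsq {a b c e : Fin d} (hab : a ≠ b) (hac : a ≠ c) (hae : a ≠ e) (hbc : b ≠ c)
    (hbe : b ≠ e) (hce : c ≠ e) (x y z w : ℝ) :
    ‖x • tm d a + y • tm d b + z • tm d c + w • tm d e‖ ^ 2 = x ^ 2 + y ^ 2 + z ^ 2 + w ^ 2 := by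
  rw [← real_inner_self_eq_norm_sq]
  simp only [inner_add_left, inner_add_right, real_inner_smul_left, real_inner_smul_right, inn,
    hab, hac, hae, hbc, hbe, hce, hab.symm, hac.symm, hae.symm, hbc.symm, hbe.symm, hce.symm,
    if_true, if_false]
  ring

theorem nle {v : E d} {s : ℝ} (hs : 0 ≤ s) (h : ‖v‖ ^ 2 ≤ s ^ 2) : ‖v‖ ≤ s :=
  (pow_le_pow_iff_left₀ (norm_nonneg _) hs two_ne_zero).1 h

theorem ntm (i : Fin d) : ‖tm d i‖ = 1 := by
  have h : ‖tm d i‖ ^ 2 = 1 := by
    rw [← real_inner_self_eq_norm_sq, inn, if_pos rfl]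
  have h0 := norm_nonneg (tm d i)
  nlinarith

/-- cost seen from `0` -/
noncomputable def C (t : BT (Fin d) (E d)) : ℝ := dist 0 (t.pos (tm d)) + t.esum (tm d) dist

theorem C_leaf (i : Fin d) : C (.leaf i : BT (Fin d) (E d)) = 1 := by
  unfold C
  simp only [BT.pos, BT.esum, add_zero]
  rw [dist_zero_left, ntm]

theorem C_node (l r : BT (Fin d) (E d)) : C (.node 0 l r) = C l + C r := by
  unfold C
  simp only [BT.pos, BT.esum, dist_self]
  ring

/-- group of four -/
theorem four {a b c e : Fin d} (hab : a ≠ b) (hac : a ≠ c) (hae : a ≠ e) (hbc : b ≠ c)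
    (hbe : b ≠ e) (hce : c ≠ e) : ∃ t : BT (Fin d) (E d), t.ok ∧ t.lv = {a, b, c, e} ∧
      C t ≤ 3816 / 1000 := by
  refine ⟨.node ((1057 / 10000 : ℝ) • (tm d a + tm d b + tm d c + tm d e))
    (.node ((2212 / 10000 : ℝ) • (tm d a + tm d b) + (747 / 10000 : ℝ) • (tm d c + tm d e))
      (.leaf a) (.leaf b))
    (.node ((747 / 10000 : ℝ) • (tm d a + tm d b) + (2212 / 10000 : ℝ) • (tm d c + tm d e))
      (.leaf c) (.leaf e)), ?_, ?_, ?_⟩
  · simp [BT.ok, BT.lv, hab, hac, hae, hbc, hbe, hce, hab.symm, hac.symm, hae.symm, hbc.symm,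
      hbe.symm, hce.symm]
  · ext k
    simp [BT.lv]
    tauto
  · unfold C
    simp only [BT.pos, BT.esum, add_zero]
    have N := nsq hab hac hae hbc hbe hce
    have h0 : dist (0 : E d) ((1057 / 10000 : ℝ) • (tm d a + tm d b + tm d c + tm d e)) ≤
        2114 / 10000 := by
      rw [dist_zero_left]
      refine nle (by norm_num) ?_
      have := N (1057 / 10000) (1057 / 10000) (1057 / 10000) (1057 / 10000)
      rw [show (1057 / 10000 : ℝ) • (tm d a + tm d b + tm d c + tm d e) =
        (1057 / 10000 : ℝ) • tm d a + (1057 / 10000 : ℝ) • tm d b + (1057 / 10000 : ℝ) • tm d c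
          + (1057 / 10000 : ℝ) • tm d e by module, this]
      norm_num
    have h1 : dist ((1057 / 10000 : ℝ) • (tm d a + tm d b + tm d c + tm d e))
        ((2212 / 10000 : ℝ) • (tm d a + tm d b) + (747 / 10000 : ℝ) • (tm d c + tm d e)) ≤
        16913 / 100000 := by
      rw [dist_eq_norm]
      refine nle (by norm_num) ?_
      have := N (1057 / 10000 - 2212 / 10000) (1057 / 10000 - 2212 / 10000)
        (1057 / 10000 - 747 / 10000) (1057 / 10000 - 747 / 10000)
      rw [show (1057 / 10000 : ℝ) • (tm d a + tm d b + tm d c + tm d e) -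
        ((2212 / 10000 : ℝ) • (tm d a + tm d b) + (747 / 10000 : ℝ) • (tm d c + tm d e)) =
        (1057 / 10000 - 2212 / 10000 : ℝ) • tm d a + (1057 / 10000 - 2212 / 10000 : ℝ) • tm d b
          + (1057 / 10000 - 747 / 10000 : ℝ) • tm d c
          + (1057 / 10000 - 747 / 10000 : ℝ) • tm d e by module, this]
      norm_num
    have h2 : dist ((1057 / 10000 : ℝ) • (tm d a + tm d b + tm d c + tm d e))
        ((747 / 10000 : ℝ) • (tm d a + tm d b) + (2212 / 10000 : ℝ) • (tm d c + tm d e)) ≤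
        16913 / 100000 := by
      rw [dist_eq_norm]
      refine nle (by norm_num) ?_
      have := N (1057 / 10000 - 747 / 10000) (1057 / 10000 - 747 / 10000)
        (1057 / 10000 - 2212 / 10000) (1057 / 10000 - 2212 / 10000)
      rw [show (1057 / 10000 : ℝ) • (tm d a + tm d b + tm d c + tm d e) -
        ((747 / 10000 : ℝ) • (tm d a + tm d b) + (2212 / 10000 : ℝ) • (tm d c + tm d e)) =
        (1057 / 10000 - 747 / 10000 : ℝ) • tm d a + (1057 / 10000 - 747 / 10000 : ℝ) • tm d b
          + (1057 / 10000 - 2212 / 10000 : ℝ) • tm d c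
          + (1057 / 10000 - 2212 / 10000 : ℝ) • tm d e by module, this]
      norm_num
    have h3 : dist ((2212 / 10000 : ℝ) • (tm d a + tm d b) + (747 / 10000 : ℝ) •
        (tm d c + tm d e)) (tm d a) ≤ 81647 / 100000 := by
      rw [dist_eq_norm]
      refine nle (by norm_num) ?_
      have := N (2212 / 10000 - 1) (2212 / 10000) (747 / 10000) (747 / 10000)
      rw [show (2212 / 10000 : ℝ) • (tm d a + tm d b) + (747 / 10000 : ℝ) •
        (tm d c + tm d e) - tm d a = (2212 / 10000 - 1 : ℝ) • tm d a + (2212 / 10000 : ℝ) • tm d b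
          + (747 / 10000 : ℝ) • tm d c + (747 / 10000 : ℝ) • tm d e by module, this]
      norm_num
    have h4 : dist ((2212 / 10000 : ℝ) • (tm d a + tm d b) + (747 / 10000 : ℝ) •
        (tm d c + tm d e)) (tm d b) ≤ 81647 / 100000 := by
      rw [dist_eq_norm]
      refine nle (by norm_num) ?_
      have := N (2212 / 10000) (2212 / 10000 - 1) (747 / 10000) (747 / 10000)
      rw [show (2212 / 10000 : ℝ) • (tm d a + tm d b) + (747 / 10000 : ℝ) •
        (tm d c + tm d e) - tm d b = (2212 / 10000 : ℝ) • tm d a + (2212 / 10000 - 1 : ℝ) • tm d b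
          + (747 / 10000 : ℝ) • tm d c + (747 / 10000 : ℝ) • tm d e by module, this]
      norm_num
    have h5 : dist ((747 / 10000 : ℝ) • (tm d a + tm d b) + (2212 / 10000 : ℝ) •
        (tm d c + tm d e)) (tm d c) ≤ 81647 / 100000 := by
      rw [dist_eq_norm]
      refine nle (by norm_num) ?_
      have := N (747 / 10000) (747 / 10000) (2212 / 10000 - 1) (2212 / 10000)
      rw [show (747 / 10000 : ℝ) • (tm d a + tm d b) + (2212 / 10000 : ℝ) •
        (tm d c + tm d e) - tm d c = (747 / 10000 : ℝ) • tm d a + (747 / 10000 : ℝ) • tm d b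
          + (2212 / 10000 - 1 : ℝ) • tm d c + (2212 / 10000 : ℝ) • tm d e by module, this]
      norm_num
    have h6 : dist ((747 / 10000 : ℝ) • (tm d a + tm d b) + (2212 / 10000 : ℝ) •
        (tm d c + tm d e)) (tm d e) ≤ 81647 / 100000 := by
      rw [dist_eq_norm]
      refine nle (by norm_num) ?_
      have := N (747 / 10000) (747 / 10000) (2212 / 10000) (2212 / 10000 - 1)
      rw [show (747 / 10000 : ℝ) • (tm d a + tm d b) + (2212 / 10000 : ℝ) •
        (tm d c + tm d e) - tm d e = (747 / 10000 : ℝ) • tm d a + (747 / 10000 : ℝ) • tm d b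
          + (2212 / 10000 : ℝ) • tm d c + (2212 / 10000 - 1 : ℝ) • tm d e by module, this]
      norm_num
    linarith

theorem join {S S' : Finset (Fin d)} {x y : ℝ} (hd : Disjoint S S')
    (h : ∃ t : BT (Fin d) (E d), t.ok ∧ t.lv = S ∧ C t ≤ x)
    (h' : ∃ t : BT (Fin d) (E d), t.ok ∧ t.lv = S' ∧ C t ≤ y) :
    ∃ t : BT (Fin d) (E d), t.ok ∧ t.lv = S ∪ S' ∧ C t ≤ x + y := by
  obtain ⟨t, h1, h2, h3⟩ := h
  obtain ⟨t', k1, k2, k3⟩ := h'
  refine ⟨.node 0 t t', ⟨h1, k1, ?_⟩, ?_, ?_⟩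
  · rw [h2, k2]
    exact hd
  · show t.lv ∪ t'.lv = S ∪ S'
    rw [h2, k2]
  · rw [C_node]
    exact add_le_add h3 k3

theorem one (a : Fin d) : ∃ t : BT (Fin d) (E d), t.ok ∧ t.lv = {a} ∧ C t ≤ 1 :=
  ⟨.leaf a, trivial, rfl, (C_leaf a).le⟩

theorem all : ∀ n : ℕ, ∀ S : Finset (Fin d), S.card = n → 1 ≤ n →
    ∃ t : BT (Fin d) (E d), t.ok ∧ t.lv = S ∧ C t ≤ 954 / 1000 * n + 138 / 1000 := by
  intro n
  induction n using Nat.strong_induction_on with
  | _ n ih =>
    intro S hS hn
    rcases lt_or_ge n 4 with h4 | h4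
    · have key : n = 1 ∨ n = 2 ∨ n = 3 := by omega
      rcases key with rfl | rfl | rfl
      · obtain ⟨a, rfl⟩ := Finset.card_eq_one.1 hS
        obtain ⟨t, h1, h2, h3⟩ := one a
        exact ⟨t, h1, h2, h3.trans (by norm_num)⟩
      · obtain ⟨a, b, hab, rfl⟩ := Finset.card_eq_two.1 hS
        obtain ⟨t, h1, h2, h3⟩ := join (by simpa using hab) (one a) (one b)
        exact ⟨t, h1, by rw [h2]; rfl, h3.trans (by norm_num)⟩
      · obtain ⟨a, b, c, hab, hac, hbc, rfl⟩ := Finset.card_eq_three.1 hS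
        obtain ⟨t, h1, h2, h3⟩ := join (S := {a}) (S' := {b} ∪ {c}) (by simp [hab, hac]) (one a)
          (join (by simpa using hbc) (one b) (one c))
        exact ⟨t, h1, by rw [h2]; rfl, h3.trans (by norm_num)⟩
    · obtain ⟨T, hT, hc⟩ := Finset.exists_subset_card_eq (s := S) (n := 4) (by omega)
      obtain ⟨a, T', ha, rfl, hc'⟩ := Finset.card_eq_succ.1 hc
      obtain ⟨b, c, e, hbc, hbe, hce, rfl⟩ := Finset.card_eq_three.1 hc'
      simp only [Finset.mem_insert, Finset.mem_singleton, not_or] at ha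
      have F := four ha.1 ha.2.1 ha.2.2 hbc hbe hce
      rcases eq_or_lt_of_le h4 with h | h
      · have : ({a, b, c, e} : Finset (Fin d)) = S :=
          Finset.eq_of_subset_of_card_le hT (by rw [hc]; omega)
        obtain ⟨t, h1, h2, h3⟩ := F
        refine ⟨t, h1, h2.trans this, h3.trans ?_⟩
        rw [← h]
        norm_num
      · have hcard : (S \ {a, b, c, e}).card = n - 4 := by
          rw [Finset.card_sdiff_of_subset hT, hc, hS]
        obtain ⟨t, h1, h2, h3⟩ := join (Finset.disjoint_sdiff) F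
          (ih (n - 4) (by omega) (S \ {a, b, c, e}) hcard (by omega))
        refine ⟨t, h1, ?_, h3.trans ?_⟩
        · rw [h2, Finset.union_sdiff_of_subset hT]
        · have : ((n - 4 : ℕ) : ℝ) = n - 4 := by
            rw [Nat.cast_sub h4]
            norm_num
          rw [this]
          linarith

end UPr

theorem up : LG_UP := by
  intro d i0 hd
  obtain ⟨t, h1, h2, h3⟩ := UPr.all (d := d) (d - 1) (Finset.univ.erase i0)
    (by rw [Finset.card_erase_of_mem (Finset.mem_univ _), Finset.card_univ, Fintype.card_fin])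
    (by omega)
  refine ⟨t, ⟨h1, h2⟩, ?_⟩
  have e : ((d - 1 : ℕ) : ℝ) = d - 1 := by
    rw [Nat.cast_sub (by omega)]
    norm_num
  rw [e] at h3
  have tri := dist_triangle (tm d i0) 0 (t.pos (tm d))
  rw [dist_zero_right, UPr.ntm] at tri
  unfold tot
  unfold UPr.C at h3
  linarith

end LG
end H11ST
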